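import Pool.Agent.Helper1.KA.GeneralB
import Pool.Agent.Helper78.KL.Lift

set_option autoImplicit false

/-!
Project KA (MP_0b9e0b_ag), KA-5: a point of `X` with given coordinates `x` and given `e` over a
finite separable extension.
-/

namespace Pool.Agent.Helper78.KA

open Pool.Agent.Helper1.KA Pool.Agent.Helper16
open Pool.Agent.Helper1.KL (charP_alg ec yc)
open Pool.Agent.Helper78.KL (lift_core)

/-- **KA-5** -/
theorem modLift (k : Type) [Field k] (p a : ℕ) [Fact p.Prime] [CharP k p] {n : ℕ}
    (c : Fin n → k) : ModLift k p a c := by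
  classical
  intro L _ _ I ρ x ε hρ h0 he
  have hcL : CharP L p := charP_alg (k := k) L
  set t : L := algebraMap (RatFunc k) L RatFunc.X with ht
  let d : Fin n → L := fun i => t * (algebraMap (RatFunc k) L (RatFunc.C (c i)) * x i ^ a) + x i
  have he' : ε ^ p - ε = ∑ i ∈ I, (ρ i).cast * d i := by
    rw [he, Finset.mul_sum, ← Finset.sum_add_distrib]
    refine Finset.sum_congr rfl fun i _ => ?_
    show _ = _ * (t * (algebraMap (RatFunc k) L (RatFunc.C (c i)) * x i ^ a) + x i)
    ring
  obtain ⟨M, iM, iLM, hfin, hsep, y, hy, hsum⟩ := lift_core L I ρ d ε hρ h0 he'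
  let iKM : Algebra (RatFunc k) M := ((algebraMap L M).comp (algebraMap (RatFunc k) L)).toAlgebra
  have htow : IsScalarTower (RatFunc k) L M := IsScalarTower.of_algebraMap_eq fun _ => rfl
  refine ⟨M, iM, iLM, iKM, htow, hfin, hsep,
    fun j => match j with
      | Sum.inl i => if i ∈ I then some (algebraMap L M (x i)) else none
      | Sum.inr i => if i ∈ I then some (y i) else none, ?_, ?_, ?_, ?_⟩
  · intro i
    by_cases hi : i ∈ I
    · right
      refine ⟨algebraMap L M (x i), y i, by simp [hi], by simp [hi], ?_⟩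
      rw [hy i, IsScalarTower.algebraMap_apply (RatFunc k) L M RatFunc.X,
        IsScalarTower.algebraMap_apply (RatFunc k) L M (RatFunc.C (c i)), ← ht]
      show algebraMap L M (t * (algebraMap (RatFunc k) L (RatFunc.C (c i)) * x i ^ a) + x i) = _
      rw [map_add, map_mul, map_mul, map_pow]
      ring
    · left
      exact ⟨by simp [hi], by simp [hi]⟩
  · intro i hi
    exact ⟨by simp [hi], by simp [hi]⟩
  · intro i hi
    simp [hi]
  · unfold ec yc
    rw [← hsum, ← Finset.sum_subset (Finset.subset_univ I)]
    · refine Finset.sum_congr rfl fun i hi => ?_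
      simp [hi]
    · intro i _ hi
      rw [hρ i hi]
      simp

end Pool.Agent.Helper78.KA
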